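import Pool.Agent.V2450.WM.Max

/-!
# MP_6451f1_ag: the p-adic monodromy-weight conjecture in all even (or all odd) degrees at once
-/

set_option autoImplicit false

open Module

universe u v w

namespace Pool.Agent.Results.MP_6451f1_ag.SeveralDegreesAtOnce

open Pool.Agent.H914 Pool.Agent.Y143 Pool.Agent.Y163.MW Pool.Agent.Y163.MX Pool.Agent.V2450.WM

section

variable {K : Type u} [Field K] {Ω : Type w} [Field Ω] [CharZero Ω]

/-- The number `2 ∑ k rank (N ^ k)` on the sum of the `H^m(X)`, `m ∈ S`. -/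
noncomputable def ranks (T : PTheory.{u, v, w} K Ω) (X : SmVar.{u} K) (S : Finset ℕ) : ℤ :=
  ∑ m ∈ S, (T.H X).rankMoment m

/-- The number `∑ (a - b)² h^(a,b)(X)`, over all `a`, `b` with `a + b ∈ S`. -/
noncomputable def hodge (T : PTheory.{u, v, w} K Ω) (X : SmVar.{u} K) (S : Finset ℕ) : ℤ :=
  ∑ m ∈ S, hodgeMoment m (T.hodge X m)

/-- `2 ∑ k rank (N ^ k) ≤ ∑ (w - m)² ≤ ∑ (2 λ - m)² ≤ ∑ (a - b)² h^(a,b)`: the sums are over the
powers of `N` on the `H^m(X)`, `m ∈ S`, over the eigenvalues of the Frobenius on the `H^m(X)`, `m ∈ S`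
(with weights `w` and slopes `λ`), and over the Hodge numbers with `a + b ∈ S`. -/
def Sandwich (T : PTheory.{u, v, w} K Ω) (q : ℕ) (X : SmVar.{u} K) (S : Finset ℕ) : Prop :=
  ranks T X S ≤ ∑ m ∈ S, (T.H X).weightMoment q m ∧
    ∑ m ∈ S, ((T.H X).weightMoment q m : ℝ) ≤ ∑ m ∈ S, newtonMoment (T.H X) T.val m ∧
    ∑ m ∈ S, newtonMoment (T.H X) T.val m ≤ hodge T X S

/-- The number of the Frobenius eigenvalues on the graded pieces of the monodromy filtrations `M m` of
all the `H^m(X)`, `m ∈ S`, whose weight is not the expected one, is at most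
`∑ (a - b)² h^(a,b) - 2 ∑ k rank (N ^ k)`. -/
def FewWrong (T : PTheory.{u, v, w} K Ω) (q : ℕ) (X : SmVar.{u} K) (S : Finset ℕ) : Prop :=
  ∀ M : ℕ → ℤ → Submodule Ω (T.H X).V,
    (∀ m ∈ S, IsMonodromyFiltrationOn ((T.H X).gr m) (T.H X).N (M m)) →
    ∑ m ∈ S, ((finrank Ω ((T.H X).gr m) : ℤ) - rightDeg (T.H X) q m (M m)) ≤
      hodge T X S - ranks T X S

/-- If the monodromy is maximal, that is, `2 ∑ k rank (N ^ k) ≥ ∑ (a - b)² h^(a,b)`, then for all
`m ∈ S` the monodromy-weight conjecture holds for `H^m(X)`; moreover all Frobenius eigenvalues on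
`H^m(X)` have a weight `2 a` and the slope `a` for some natural number `a`, and there are
`h^(a, m - a)` eigenvalues of weight `2 a`. -/
def MaximalCase (T : PTheory.{u, v, w} K Ω) (q : ℕ) (X : SmVar.{u} K) (S : Finset ℕ) : Prop :=
  hodge T X S ≤ ranks T X S → ∀ m ∈ S, (T.H X).MWPure q m ∧
    (∀ α, mult (T.H X) m α ≠ 0 →
      ∃ a : ℕ, T.hodge X m a ≠ 0 ∧ IsWeilNumber q (2 * (a : ℤ)) α ∧ T.val α = a) ∧
    ∀ a : ℕ, finrank Ω ((T.H X).exc q m (2 * (a : ℤ) - m)) = T.hodge X m a

end

/-- **The `p`-adic monodromy-weight conjecture in several degrees at once.** Let `X` be a smooth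
proper variety over a finite extension `K` of `ℚ_p`, and let `S` be a set of degrees `m ≤ 2 dim X`
of one parity such that the cohomology in all the degrees outside `S` is good (`Remaining`; for
example `X` has no odd cohomology, as a hyperkähler variety of K3^[n]-type, and `S` is the set of all
even degrees). Then, for `D_pst(H^m(X))`,

(1) `2 ∑ k rank (N ^ k) ≤ ∑ (w - m)² ≤ ∑ (2 λ - m)² ≤ ∑ (a - b)² h^(a,b)`, summed over all `m ∈ S`;

(2) the number of eigenvalues of wrong weight in all the degrees of `S` is at most the difference of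
the last and the first term in (1);

(3) if these are equal, the conjecture holds for `H^m(X)` for all `m ∈ S`, and the eigenvalues have
the weights `2 a` and the slopes `a` with multiplicity `h^(a, m - a)`. -/
theorem result {K : Type u} [Field K] {Ω : Type w} [Field Ω] [CharZero Ω] [IsAlgClosed Ω]
    {T : PTheory.{u, v, w} K Ω} {q : ℕ} (hq : 1 < q) (hT : T.IsPLocal q) (X : SmVar.{u} K)
    (S : Finset ℕ) (hS : Remaining (T.H X) q (2 * X.dim) S) :
    Sandwich T q X S ∧ FewWrong T q X S ∧ MaximalCase T q X S := by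
  have hrat := rational_remaining (hT.coh X) (hT.rational X) hS
  have hN : ∀ m ∈ S, NewtonAboveHodge (T.H X) T.val m (T.hodge X m) :=
    fun m _ => hT.polygons X m
  obtain ⟨h1, h2, h3⟩ := sandwichS hq (hT.coh X) hrat hT.val hN
  have e : ((hodge T X S : ℤ) : ℝ) = ∑ m ∈ S, (hodgeMoment m (T.hodge X m) : ℝ) := by
    unfold hodge
    push_cast
    rfl
  refine ⟨⟨h1, h2, by rw [e]; exact h3⟩, fun M hM => ?_, fun h => ?_⟩
  · refine (wrongS_le hq (hT.coh X) S hM).trans ?_
    have h4 : ∑ m ∈ S, (T.H X).weightMoment q m ≤ hodge T X S := by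
      have h5 : ((∑ m ∈ S, (T.H X).weightMoment q m : ℤ) : ℝ) ≤ (hodge T X S : ℝ) := by
        rw [e]
        push_cast
        exact h2.trans h3
      exact_mod_cast h5
    unfold ranks
    linarith
  · exact maximalS hq (hT.coh X) hrat hT.val hN h

end Pool.Agent.Results.MP_6451f1_ag.SeveralDegreesAtOnce
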